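import Pool.Agent.W467.FG.F

/-!
# Subvarieties of codimension two with a linear symmetry

Let `X ⊂ ℙⁿ` be a nonsingular subvariety of codimension two which is the zero scheme of a section
of a rank two bundle `E` (for `n ≥ 6` every nonsingular `X` of codimension two is of this form, by
the theorems of Barth-Larsen and Serre), stable under an invertible linear transformation `g`.
Suppose `g` has an eigenspace of dimension at least three not contained in the cone over `X`. Then
`X` is a transversal intersection of two hypersurfaces unless `g` and `c₁(E)` satisfy a precise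
numerical condition at the fixed points of `g`. For involutions eigenspaces contained in the cone
are allowed.
-/

set_option autoImplicit false

namespace Pool.Agent.Results.MP_9a3fdb_ag.LinearSymmetryCodimTwo

open MvPolynomial H960VB

/-- the affine cone over the projective zero set `X` of the ideal `I` -/
def cone {n : ℕ} (I : Ideal (MvPolynomial (Fin (n + 1)) ℂ)) : Set (Fin (n + 1) → ℂ) :=
  {x | ∀ F ∈ I, eval x F = 0}

/-- the gradient at the point `x` -/
noncomputable def grad {n : ℕ} (F : MvPolynomial (Fin (n + 1)) ℂ) (x : Fin (n + 1) → ℂ) :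
    Fin (n + 1) → ℂ := fun i => eval x (pderiv i F)

/-- the conormal space at the point `x` of the cone -/
noncomputable def conormal {n : ℕ} (I : Ideal (MvPolynomial (Fin (n + 1)) ℂ))
    (x : Fin (n + 1) → ℂ) : Submodule ℂ (Fin (n + 1) → ℂ) :=
  Submodule.span ℂ {v | ∃ F ∈ I, v = grad F x}

/-- `I` is the homogeneous ideal of a nonsingular irreducible closed subvariety `X` of
codimension `r` of the complex projective space `ℙⁿ`: it is a homogeneous prime ideal, `X` is not
empty, and at every point of `X` the gradients of the elements of `I` span a space of dimension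
`r` (Jacobian criterion). -/
structure IsSmoothVariety (n r : ℕ) (I : Ideal (MvPolynomial (Fin (n + 1)) ℂ)) : Prop where
  prime : I.IsPrime
  homogeneous : ∀ F ∈ I, ∀ d, homogeneousComponent d F ∈ I
  nonempty : ∃ x ∈ cone I, x ≠ 0
  smooth : ∀ x ∈ cone I, x ≠ 0 → Module.finrank ℂ (conormal I x) = r

/-- `X` is a transversal intersection of `r` hypersurfaces: there are forms `F_1, …, F_r` with
`X = V(F_1, …, F_r)`, with linearly independent differentials at every point of `X`, and
generating the homogeneous ideal `I` of `X`. -/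
def IsTransversalIntersection (n r : ℕ) (I : Ideal (MvPolynomial (Fin (n + 1)) ℂ)) : Prop :=
  ∃ F : Fin r → MvPolynomial (Fin (n + 1)) ℂ, (∀ i, ∃ d, (F i).IsHomogeneous d) ∧
    (∀ x, x ∈ cone I ↔ ∀ i, eval x (F i) = 0) ∧
    (∀ x ∈ cone I, x ≠ 0 → LinearIndependent ℂ (fun i => grad (F i) x)) ∧
    I = Ideal.span (Set.range F)

/-- `X` is, as a scheme, the zero scheme of the global section `s` of the rank two bundle `E`: the
ideal `I` of `X` is the saturation of the ideal generated by the coordinates of `s`. -/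
def IsZeroScheme {n : ℕ} (E : Bundle2 n) (s : Fin E.a → MvPolynomial (Fin (n + 1)) ℂ)
    (I : Ideal (MvPolynomial (Fin (n + 1)) ℂ)) : Prop :=
  E.IsSection 0 s ∧ ∀ F, F ∈ I ↔ ∃ N : ℕ, ∀ i, X i ^ N * F ∈ Ideal.span (Set.range s)

/-- the eigenspace of `g` with eigenvalue `l` -/
def eigen {n : ℕ} (g : Matrix (Fin (n + 1)) (Fin (n + 1)) ℂ) (l : ℂ) :
    Submodule ℂ (Fin (n + 1) → ℂ) :=
  LinearMap.ker (g.mulVecLin - l • LinearMap.id)

/-- The eigenspace of `g` with eigenvalue `l` has dimension at least three, and it is not contained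
in the cone over `X` or `g` is an involution of `ℙⁿ`. -/
def IsLarge {n : ℕ} (I : Ideal (MvPolynomial (Fin (n + 1)) ℂ))
    (g : Matrix (Fin (n + 1)) (Fin (n + 1)) ℂ) (l : ℂ) : Prop :=
  3 ≤ Module.finrank ℂ (eigen g l) ∧ ((∃ x ∈ eigen g l, x ∉ cone I) ∨ g * g = l ^ 2 • 1)

/-- `[x]` is a fixed point of `g` on `X`, with `g x = r x`, and the conormal space of the cone at
`x` has a basis of eigenvectors of the transpose of `g`, with eigenvalues `a` and `b`. -/
structure IsFixedPoint {n : ℕ} (I : Ideal (MvPolynomial (Fin (n + 1)) ℂ))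
    (g : Matrix (Fin (n + 1)) (Fin (n + 1)) ℂ) (x : Fin (n + 1) → ℂ) (r a b : ℂ) : Prop where
  mem : x ∈ cone I
  ne_zero : x ≠ 0
  fixed : g.mulVec x = r • x
  basis : ∃ F₁ ∈ I, ∃ F₂ ∈ I, LinearIndependent ℂ ![grad F₁ x, grad F₂ x] ∧
    g.transpose.mulVec (grad F₁ x) = a • grad F₁ x ∧
    g.transpose.mulVec (grad F₂ x) = b • grad F₂ x

theorem result {n : ℕ} (I : Ideal (MvPolynomial (Fin (n + 1)) ℂ)) (hI : IsSmoothVariety n 2 I)
    -- `X` is the zero scheme of a section of `E`
    (E : Bundle2 n) (s : Fin E.a → MvPolynomial (Fin (n + 1)) ℂ) (hs : IsZeroScheme E s I)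
    -- the first Chern class of `E` is `c = p + q`, where `(p, q)` is the splitting type of a line
    (P Q : Fin (n + 1) → ℂ) (hPQ : LinearIndependent ℂ ![P, Q]) (p q c : ℤ)
    (hE : E.SplitsOn P Q p q) (hc : c = p + q)
    -- `X` is stable under `g`
    (g : Matrix (Fin (n + 1)) (Fin (n + 1)) ℂ) (hg : IsUnit g)
    (hst : ∀ x ∈ cone I, g.mulVec x ∈ cone I)
    -- the numerical condition
    (h : (∃ l m, IsLarge I g l ∧ IsLarge I g m ∧ (l / m) ^ c ≠ 1) ∨
      ∃ l x r a b, IsLarge I g l ∧ IsFixedPoint I g x r a b ∧ a * b * r ^ (c - 2) ≠ l ^ c) :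
    IsTransversalIntersection n 2 I := by
  classical
  subst hc
  have hpr := hI.prime
  have hinj : Function.Injective g.mulVecLin := by
    intro x y h
    exact Matrix.mulVec_injective_iff_isUnit.2 hg h
  have Z : Pool.Agent.W467.FX.ZS E s I :=
    { sec := Pool.Agent.W615.sec_iff.2 hs.1
      prime := hI.prime
      mem := fun i => (hs.2 _).2 ⟨0, fun j => by
        rw [pow_zero, one_mul]
        exact Ideal.subset_span ⟨i, rfl⟩⟩
      gen := by
        intro F hF x hx
        obtain ⟨N, hN⟩ := (hs.2 F).1 hF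
        obtain ⟨i, hi⟩ : ∃ i, x i ≠ 0 := by
          by_contra hc
          push Not at hc
          exact hx (funext hc)
        exact ⟨X i ^ N, by rw [map_pow, eval_X]; exact pow_ne_zero _ hi, hN i⟩
      smooth := hI.smooth
      ne := hI.nonempty }
  have hst' : ∀ F ∈ I, lsub g.mulVecLin F ∈ I := by
    intro F hF
    apply Z.mem_of_vanish
    intro x hx _
    rw [eval_lsub]
    exact hst x hx F hF
  have hgood : ∀ l, IsLarge I g l → Pool.Agent.W467.FX.Good I g.mulVecLin l := by
    intro l hl
    refine ⟨hl.1, ?_⟩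
    rcases hl.2 with ⟨x, hx, hxc⟩ | h2
    · left
      refine ⟨x, ?_, hxc⟩
      have h1 := LinearMap.mem_ker.1 hx
      rw [LinearMap.sub_apply, LinearMap.smul_apply, LinearMap.id_apply, sub_eq_zero] at h1
      exact h1
    · right
      intro v
      rw [Matrix.mulVecLin_apply, Matrix.mulVecLin_apply, Matrix.mulVec_mulVec, h2,
        Matrix.smul_mulVec, Matrix.one_mulVec]
  have htr : ∀ (v : Fin (n + 1) → ℂ) (i : Fin (n + 1)),
      ∑ k, g.mulVecLin (Pi.single i 1) k * v k = g.transpose.mulVec v i := by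
    intro v i
    rw [Matrix.mulVec, dotProduct]
    refine Finset.sum_congr rfl fun k _ => ?_
    rw [Matrix.mulVecLin_apply, Matrix.mulVec_single_one]
    rfl
  obtain ⟨hn, hsp⟩ := Pool.Agent.W467.FX.main Z hinj hst' hPQ hE (by
    rcases h with ⟨l, m, hl, hm, hne⟩ | ⟨l, x, r, a, b, hl, hx, hne⟩
    · exact Or.inl ⟨l, m, hgood l hl, hgood m hm, hne⟩
    · obtain ⟨F₁, h₁, F₂, h₂, hind, ha, hb⟩ := hx.basis
      refine Or.inr ⟨l, hgood l hl, x, hx.mem, hx.ne_zero, r, hx.fixed, F₁, h₁, F₂, h₂, ?_, a, b,
        ?_, ?_, hne⟩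
      · obtain ⟨i, j, hij⟩ := Pool.Agent.W467.FX.exists_minor_of_indep hind
        refine ⟨i, j, ?_⟩
        rw [Pool.Agent.W467.FX.eval_Lam]
        exact hij
      · intro i
        exact (htr _ i).trans (congrFun ha i)
      · intro i
        exact (htr _ i).trans (congrFun hb i))
  obtain ⟨F, G, hF, hG, hFG⟩ := Z.ci hn hsp
  have hrange : I = Ideal.span (Set.range ![F, G]) := by
    rw [hFG, Matrix.range_cons, Matrix.range_cons, Matrix.range_empty, Set.union_empty]
    rfl
  refine ⟨![F, G], ?_, ?_, ?_, hrange⟩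
  · intro i
    fin_cases i
    · exact hF
    · exact hG
  · intro x
    constructor
    · intro hx i
      apply hx
      rw [hrange]
      exact Ideal.subset_span ⟨i, rfl⟩
    · intro hx H hH
      have h1 : I ≤ RingHom.ker (eval x) := by
        rw [hrange, Ideal.span_le]
        rintro _ ⟨i, rfl⟩
        exact hx i
      exact h1 hH
  · intro x hx hx0
    exact Pool.Agent.W467.FX.indep_of_span hrange hx (hI.smooth x hx hx0)

end Pool.Agent.Results.MP_9a3fdb_ag.LinearSymmetryCodimTwo
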